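import Pool.Agent.H21.FlowDef

set_option autoImplicit false

namespace Pool.Agent.Results.MP_091941_lc.NotInvariant

open Pool.Agent.H21.Flow Filter Nat.Partrec.Code
open Nat.Partrec (Code)

lemma mono {F : Interp} (P : Chart F) {k : ℕ} : ∀ {k' : ℕ} {v s y}, k ≤ k' →
    exec P k v s = some y → exec P k' v s = some y := by
  induction k with
  | zero => intro _ _ _ _ _ h; simp [exec] at h
  | succ k ih =>
    intro k' v s y hk h
    obtain ⟨k', rfl⟩ : ∃ j, k' = j + 1 := ⟨k' - 1, by omega⟩
    simp only [exec] at h ⊢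
    cases hv : P.node v <;> simp only [hv] at h ⊢
    · exact ih (by omega) h
    · exact ih (by omega) h
    · exact h

def Beh (F : Interp) (k : ℕ) (S : Set (ℕ → ℕ)) : Set (ℕ → Option ℕ) :=
  {b | ∃ (P : Chart F) (v : P.V) (σ : ℕ → ℕ → ℕ), (∀ a, σ a ∈ S) ∧
    b = fun x => exec P k v fun a => σ a x}

lemma beh_fin (F : Interp) (k : ℕ) : ∀ S : Set (ℕ → ℕ), S.Finite → (Beh F k S).Finite := by
  induction k with
  | zero =>
    intro S _
    refine (Set.finite_singleton fun _ => none).subset ?_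
    rintro _ ⟨P, v, σ, -, rfl⟩; rfl
  | succ k ih =>
    intro S hS
    have hl : ∀ n, {l : Fin n → ℕ → ℕ | ∀ a, l a ∈ S}.Finite := fun n => Set.Finite.pi' fun _ => hS
    have h1 : (S ∪ ⋃ i, (fun l x => F.fn i fun a => l a x) ''
        {l : Fin (F.fa i) → ℕ → ℕ | ∀ a, l a ∈ S}).Finite :=
      hS.union (Set.finite_iUnion fun i => (hl _).image _)
    have h2 : (⋃ j, (fun q : (Fin (F.pa j) → ℕ → ℕ) × (ℕ → Option ℕ) × (ℕ → Option ℕ) =>
        fun x => if F.pr j (fun a => q.1 a x) then q.2.1 x else q.2.2 x) ''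
        ({l | ∀ a, l a ∈ S} ×ˢ Beh F k S ×ˢ Beh F k S)).Finite :=
      Set.finite_iUnion fun j => ((hl _).prod ((ih S hS).prod (ih S hS))).image _
    refine (((ih _ h1).union h2).union (hS.image fun f x => some (f x))).subset ?_
    rintro _ ⟨P, v, σ, hσ, rfl⟩
    simp only [exec]
    cases hv : P.node v with
    | op i args t w =>
      refine Or.inl (Or.inl ⟨P, w, Function.update σ t fun x => F.fn i fun a => σ (args a) x,
        fun a => ?_, ?_⟩)
      · rcases eq_or_ne a t with rfl | h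
        · rw [Function.update_self]
          exact Or.inr (Set.mem_iUnion.2 ⟨i, fun a => σ (args a), fun a => hσ _, rfl⟩)
        · rw [Function.update_of_ne h]; exact Or.inl (hσ a)
      · ext1 x
        refine congrArg (exec P k w) ?_
        ext a
        rcases eq_or_ne a t with rfl | h
        · simp
        · simp [Function.update_of_ne h]
    | test j args y n =>
      refine Or.inl (Or.inr (Set.mem_iUnion.2 ⟨j, (fun a => σ (args a), _, _),
        ⟨fun a => hσ _, ⟨P, y, σ, hσ, rfl⟩, ⟨P, n, σ, hσ, rfl⟩⟩, ?_⟩))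
      ext1 x
      simp only
      split_ifs <;> rfl
    | halt => exact Or.inr ⟨_, hσ P.out, rfl⟩

lemma neg (F : Interp) (t f : ℕ → ℕ) (c : ℕ) (hc : ∃ᶠ x in atTop, t x ≤ c) :
    ∃ x y, ¬ InClass F t (Function.update f x y) := by
  set B := {b ∈ Beh F (c - 1) {id, 0} | ∀ᶠ x in atTop, t x ≤ c → (b x).isSome}
  have hB : B.Finite := (beh_fin F _ _ (Set.toFinite _)).subset fun _ h => h.1
  have h1 : ∀ᶠ x in atTop, ∀ b ∈ B, t x ≤ c → (b x).isSome :=
    (eventually_all_finite hB).2 fun b hb => hb.2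
  obtain ⟨x, hx, hx'⟩ := (hc.and_eventually h1).exists
  obtain ⟨y, hy⟩ := (hB.image fun b => (b x).getD 0).exists_notMem
  refine ⟨x, y, ?_⟩
  rintro ⟨P, hP, hP'⟩
  have hb : (fun x => run P c x) ∈ B := by
    refine ⟨⟨P, P.first, Function.update 0 0 id, fun a => ?_, ?_⟩, hP'.mono fun z hz hz' => ?_⟩
    · rcases eq_or_ne a 0 with rfl | h
      · simp
      · simp [Function.update_of_ne h]
    · ext1 z
      simp only [run]
      congr 1
      ext a
      rcases eq_or_ne a 0 with rfl | h
      · simp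
      · simp [Function.update_of_ne h]
    · obtain ⟨w, hw⟩ := Option.isSome_iff_exists.1 hz
      exact Option.isSome_iff_exists.2 ⟨w, mono P (by omega) hw⟩
  obtain ⟨w, hw⟩ := Option.isSome_iff_exists.1 (hx' _ hb hx)
  obtain ⟨T, hT⟩ := hP x
  rw [Function.update_self] at hT
  have e := (mono P (le_max_left (c - 1) (T - 1)) hw).symm.trans (mono P (le_max_right _ _) hT)
  exact hy ⟨_, hb, by simp only [hw, e]; rfl⟩

def ev (v : Fin 3 → ℕ) : Option ℕ := evaln (v 0) (Denumerable.ofNat Code (v 1)) (v 2)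

lemma ev_rec : Primrec ev := by
  have h : ∀ i : Fin 3, Primrec fun v : Fin 3 → ℕ => v i := fun i =>
    Primrec.fin_app.comp Primrec.id (Primrec.const i)
  exact primrec_evaln.comp (((h 0).pair ((Primrec.ofNat Code).comp (h 1))).pair (h 2))

def U : Interp where
  nf := 2
  np := 1
  fa := fun _ => 3
  pa := fun _ => 3
  fn := fun i v => if i = 0 then v 0 + 1 else (ev v).getD 0
  pr := fun _ v => (ev v).isSome
  fn_rec := fun i => by
    split_ifs
    · exact (Primrec.succ.comp (Primrec.fin_app.comp Primrec.id (Primrec.const 0))).to_comp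
    · exact (Primrec.option_getD.comp ev_rec (Primrec.const 0)).to_comp
  pr_rec := fun _ => (Primrec.option_isSome.comp ev_rec).to_comp

def i0 : Fin U.nf := (0 : Fin 2)
def i1 : Fin U.nf := (1 : Fin 2)
def j0 : Fin U.np := (0 : Fin 1)
def ar : Fin 3 → ℕ := ![1, 2, 0]

def prog (c : ℕ) : Chart U where
  V := Fin (c + 1) ⊕ Fin 3
  fin := inferInstance
  node := fun v => match v with
    | .inl i => if h : i.1 < c then .op i0 (fun _ => 2) 2 (.inl ⟨i + 1, by omega⟩)
        else .test j0 ar (.inr 1) (.inr 0)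
    | .inr 0 => .op i0 (fun _ => 1) 1 (.inl (Fin.last c))
    | .inr 1 => .op i1 ar 3 (.inr 2)
    | .inr 2 => .halt
  first := .inl 0
  out := 3

lemma s1 {c k : ℕ} (i : Fin (c + 1)) (h : i.1 < c) (s : ℕ → ℕ) :
    exec (prog c) (k + 1) (.inl i) s =
      exec (prog c) k (.inl ⟨i + 1, by omega⟩) (Function.update s 2 (s 2 + 1)) := by
  simp [exec, prog, h, U, i0]

lemma evs (s : ℕ → ℕ) : (ev fun a => s (ar a)) = evaln (s 1) (Denumerable.ofNat Code (s 2)) (s 0) :=
  rfl

lemma s2 {c k : ℕ} (s : ℕ → ℕ) {y} (h : evaln (s 1) (Denumerable.ofNat Code (s 2)) (s 0) = some y) :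
    exec (prog c) (k + 3) (.inl (Fin.last c)) s = some y := by
  simp [exec, prog, U, i1, evs, h]

lemma s3 {c k : ℕ} (s : ℕ → ℕ) (h : evaln (s 1) (Denumerable.ofNat Code (s 2)) (s 0) = none) :
    exec (prog c) (k + 2) (.inl (Fin.last c)) s =
      exec (prog c) k (.inl (Fin.last c)) (Function.update s 1 (s 1 + 1)) := by
  simp [exec, prog, U, i0, evs, h]

lemma loop1 {c : ℕ} (k : ℕ) : ∀ (s : ℕ → ℕ) y, exec (prog c) (2 * k) (.inl (Fin.last c)) s = some y →
    ∃ j, evaln j (Denumerable.ofNat Code (s 2)) (s 0) = some y := by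
  induction k with
  | zero => intro s y h; simp [exec] at h
  | succ k ih =>
    intro s y h
    cases he : evaln (s 1) (Denumerable.ofNat Code (s 2)) (s 0) with
    | none =>
      rw [mul_add, mul_one, s3 s he] at h
      simpa using ih _ _ h
    | some z =>
      have := (s2 (c := c) (k := 2 * k) s he).symm.trans (mono _ (by omega) h)
      exact ⟨_, this ▸ he⟩

lemma loop2 {c : ℕ} (d : ℕ) : ∀ (s : ℕ → ℕ) y,
    evaln (s 1 + d) (Denumerable.ofNat Code (s 2)) (s 0) = some y →
    ∃ k, exec (prog c) k (.inl (Fin.last c)) s = some y := by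
  induction d with
  | zero => intro s y h; exact ⟨_, s2 (k := 0) s h⟩
  | succ d ih =>
    intro s y h
    cases he : evaln (s 1) (Denumerable.ofNat Code (s 2)) (s 0) with
    | none =>
      obtain ⟨k, hk⟩ := ih (Function.update s 1 (s 1 + 1)) y (by
        simpa [add_assoc, add_comm 1 d] using h)
      exact ⟨k + 2, (s3 s he).trans hk⟩
    | some z =>
      have : evaln (s 1 + (d + 1)) (Denumerable.ofNat Code (s 2)) (s 0) = some z :=
        evaln_mono (by omega) he
      exact ⟨_, s2 (k := 0) s (he.trans (this.symm.trans h))⟩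

lemma pre {c : ℕ} (k : ℕ) (s : ℕ → ℕ) (hs : s 2 = 0) (i : ℕ) (hi : i ≤ c) :
    exec (prog c) (k + i) (.inl 0) s =
      exec (prog c) k (.inl ⟨i, by omega⟩) (Function.update s 2 i) := by
  induction i generalizing k with
  | zero => rw [show Function.update s 2 0 = s from hs ▸ Function.update_eq_self 2 s]; rfl
  | succ i ih =>
    rw [show k + (i + 1) = k + 1 + i by ring, ih _ (by omega), s1 _ (by simpa using hi)]
    simp

lemma univ : Universal U := by
  intro f hf
  obtain ⟨c, rfl⟩ := exists_code.1 (Partrec.nat_iff.1 hf)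
  refine ⟨prog (Encodable.encode c), fun x y => ?_⟩
  have hp := fun k => pre (c := Encodable.encode c) k (Function.update 0 0 x) (by simp) _ le_rfl
  rw [evaln_complete]
  constructor
  · rintro ⟨j, hj⟩
    obtain ⟨k, hk⟩ := loop2 (c := Encodable.encode c) j
      (Function.update (Function.update 0 0 x) 2 (Encodable.encode c)) y (by simpa using hj)
    exact ⟨k + Encodable.encode c + 1, (hp k).trans hk⟩
  · rintro ⟨T, hT⟩
    have := (hp (2 * T)).symm.trans (mono _ (by omega) hT)
    simpa using loop1 T _ _ this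

theorem result : (∃ F : Interp, Universal F) ∧
    ∀ (F : Interp) (t : ℕ → ℕ), (∀ x, 2 ≤ t x) → (∃ c, ∃ᶠ x in atTop, t x ≤ c) →
      ∃ f g : ℕ → ℕ, Computable f ∧ Computable g ∧ (∀ᶠ x in atTop, f x = g x) ∧
        InClass F t f ∧ ¬ InClass F t g := by
  refine ⟨⟨U, univ⟩, fun F t ht ⟨c, hc⟩ => ?_⟩
  obtain ⟨x, y, h⟩ := neg F t id c hc
  refine ⟨id, _, Computable.id, ?_, (eventually_gt_atTop x).mono fun z hz => ?_, ?_, h⟩
  · refine ((Primrec.ite (Primrec.eq.comp Primrec.id (Primrec.const x)) (Primrec.const y)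
      Primrec.id).to_comp).of_eq fun z => ?_
    simp [Function.update_apply]
  · rw [Function.update_of_ne hz.ne']
  · have e : run (⟨Unit, inferInstance, fun _ => .halt, (), 0⟩ : Chart F) 2 = fun x => some x := by
      ext1 x; simp [run, exec]
    refine ⟨⟨Unit, inferInstance, fun _ => .halt, (), 0⟩, fun x => ⟨2, congrFun e x⟩,
      Eventually.of_forall fun x => Option.isSome_iff_exists.2 ⟨x, ?_⟩⟩
    exact mono _ (Nat.sub_le_sub_right (ht x) 1) (congrFun e x)

end Pool.Agent.Results.MP_091941_lc.NotInvariant
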